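import Pool.Agent.Helper70.DK.Defs

/-!
# Digit Kakeya sets, module UPP: entropy after adding `Q` small independent copies
-/

set_option autoImplicit false

namespace Pool.Agent.Helper70.DK

open Finset

/-- variance of the sum of `Q` independent copies -/
theorem upp_var (h10 : ST_E10) {Ω : Type} (S : Finset Ω) (f : Ω → ℝ) (Q : ℕ) (lo w : ℝ)
    (hS : S.Nonempty) (hf : ∀ x ∈ S, lo ≤ f x ∧ f x ≤ lo + w) :
    ∑ u ∈ Fintype.piFinset (fun _ : Fin Q => S),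
      ((∑ i : Fin Q, f (u i)) - Q * ((∑ y ∈ S, f y) / S.card)) ^ 2 ≤
      Q * w ^ 2 * ((Fintype.piFinset (fun _ : Fin Q => S)).card : ℝ) := by
  have h := h10 Ω S S f Q lo lo w hS hS hf hf 0 (Nat.zero_le _)
  have hne : (Fintype.piFinset (fun _ : Fin Q => S)).Nonempty :=
    Fintype.piFinset_nonempty.2 fun _ => hS
  have hc : (0 : ℝ) < ((Fintype.piFinset (fun _ : Fin Q => S)).card : ℝ) := by
    exact_mod_cast hne.card_pos
  rw [Finset.sum_product, Finset.card_product] at h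
  simp only [Nat.not_lt_zero, if_false, Nat.cast_zero, zero_mul, sub_zero, zero_add,
    Finset.sum_const, nsmul_eq_mul] at h
  push_cast at h
  rw [mul_div_mul_left _ _ hc.ne', div_le_iff₀ hc] at h
  exact h

/-- rounding -/
theorem upp_round (y v b : ℤ) (hb : 0 < b) (m : ℝ) :
    (((y + v) / b - v / b - ⌊m / (b : ℝ)⌋ : ℤ) : ℝ) ^ 2 ≤
      2 * (((y : ℝ) - m) ^ 2 / (b : ℝ) ^ 2) + 8 := by
  have hbr : (0 : ℝ) < (b : ℝ) := by exact_mod_cast hb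
  have e1 := Int.mul_ediv_add_emod (y + v) b
  have e2 := Int.mul_ediv_add_emod v b
  have l1 := Int.emod_nonneg (y + v) hb.ne'
  have l2 := Int.emod_nonneg v hb.ne'
  have u1 := Int.emod_lt_of_pos (y + v) hb
  have u2 := Int.emod_lt_of_pos v hb
  have f1 := Int.floor_le (m / (b : ℝ))
  have f2 := Int.lt_floor_add_one (m / (b : ℝ))
  rw [le_div_iff₀ hbr] at f1
  rw [div_lt_iff₀ hbr] at f2
  obtain ⟨n, hn⟩ : ∃ n : ℤ, n = ⌊m / (b : ℝ)⌋ := ⟨_, rfl⟩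
  rw [← hn] at f1 f2 ⊢
  have g1 : (b : ℝ) * (((y + v) / b : ℤ) : ℝ) + (((y + v) % b : ℤ) : ℝ) = (y : ℝ) + v := by
    exact_mod_cast e1
  have g2 : (b : ℝ) * ((v / b : ℤ) : ℝ) + ((v % b : ℤ) : ℝ) = (v : ℝ) := by
    exact_mod_cast e2
  have l1' : (0 : ℝ) ≤ (((y + v) % b : ℤ) : ℝ) := by exact_mod_cast l1
  have l2' : (0 : ℝ) ≤ ((v % b : ℤ) : ℝ) := by exact_mod_cast l2
  have u1' : (((y + v) % b : ℤ) : ℝ) < (b : ℝ) := by exact_mod_cast u1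
  have u2' : ((v % b : ℤ) : ℝ) < (b : ℝ) := by exact_mod_cast u2
  push_cast
  set z : ℝ := (((y + v) / b : ℤ) : ℝ) - ((v / b : ℤ) : ℝ) - (n : ℝ) with hz
  have hz1 : (b : ℝ) * z ≤ ((y : ℝ) - m) + 2 * b := by
    rw [hz, mul_sub, mul_sub]
    linarith
  have hz2 : ((y : ℝ) - m) - 2 * b ≤ (b : ℝ) * z := by
    rw [hz, mul_sub, mul_sub]
    linarith
  have h3 : ((b : ℝ) * z) ^ 2 ≤ 2 * ((y : ℝ) - m) ^ 2 + 8 * (b : ℝ) ^ 2 := by
    have h4 : |(b : ℝ) * z| ≤ |(y : ℝ) - m| + 2 * b := by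
      rw [abs_le]
      have := le_abs_self ((y : ℝ) - m)
      have := neg_abs_le ((y : ℝ) - m)
      constructor <;> linarith
    have h5 := pow_le_pow_left₀ (abs_nonneg _) h4 2
    rw [sq_abs] at h5
    have h6 : (|(y : ℝ) - m| + 2 * b) ^ 2 ≤ 2 * |(y : ℝ) - m| ^ 2 + 8 * (b : ℝ) ^ 2 := by
      nlinarith [sq_nonneg (|(y : ℝ) - m| - 2 * b)]
    rw [sq_abs] at h6
    exact h5.trans h6
  have h7 : z ^ 2 * (b : ℝ) ^ 2 ≤
      (2 * (((y : ℝ) - m) ^ 2 / (b : ℝ) ^ 2) + 8) * (b : ℝ) ^ 2 := by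
    have e3 : (2 * (((y : ℝ) - m) ^ 2 / (b : ℝ) ^ 2) + 8) * (b : ℝ) ^ 2 =
      2 * ((y : ℝ) - m) ^ 2 + 8 * (b : ℝ) ^ 2 := by
      field_simp
    rw [e3]
    calc z ^ 2 * (b : ℝ) ^ 2 = ((b : ℝ) * z) ^ 2 := by ring
      _ ≤ _ := h3
  exact le_of_mul_le_mul_right h7 (by positivity)

/-- the second moment of the rounding error -/
theorem upp_mom (h10 : ST_E10) {Ω Ω' : Type} (B : ℕ) (hB : 2 ≤ B) (S' : Finset Ω) (S2 : Finset Ω')
    (T : Ω → ℤ) (V : Ω' → ℤ) (e' : ℤ) (s p q r Q : ℕ) (hS' : S'.Nonempty) (hS2 : S2.Nonempty)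
    (hT : ∀ x ∈ S', T x / (B : ℤ) ^ s = e') (hQ : Q = B ^ (p - s)) (hsq : s ≤ q) (hqp : q ≤ p)
    (hps : p + s ≤ 2 * q) (hqr : q ≤ r) :
    (∑ x ∈ (Fintype.piFinset (fun _ : Fin Q => S')) ×ˢ S2,
      ((((∑ i : Fin Q, T (x.1 i)) + V x.2) / (B : ℤ) ^ r - V x.2 / (B : ℤ) ^ r -
        ⌊(Q * ((∑ y ∈ S', (T y : ℝ)) / S'.card)) / ((B : ℤ) ^ r : ℤ)⌋ : ℤ) : ℝ) ^ 2) /
      (((Fintype.piFinset (fun _ : Fin Q => S')) ×ˢ S2).card : ℝ) ≤ 10 := by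
  have hBpos : (0 : ℝ) < (B : ℝ) := by
    have : (2 : ℝ) ≤ (B : ℝ) := by exact_mod_cast hB
    linarith
  have hB1 : (1 : ℝ) ≤ (B : ℝ) := by
    have : (2 : ℝ) ≤ (B : ℝ) := by exact_mod_cast hB
    linarith
  have hBz : (0 : ℤ) < (B : ℤ) ^ s := by positivity
  have hne : (Fintype.piFinset (fun _ : Fin Q => S')).Nonempty :=
    Fintype.piFinset_nonempty.2 fun _ => hS'
  have hc : (0 : ℝ) < ((Fintype.piFinset (fun _ : Fin Q => S')).card : ℝ) := by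
    exact_mod_cast hne.card_pos
  have hc2 : (0 : ℝ) < (S2.card : ℝ) := by exact_mod_cast hS2.card_pos
  have hTr : ∀ x ∈ S', (e' : ℝ) * (B : ℝ) ^ s ≤ (T x : ℝ) ∧
      (T x : ℝ) ≤ (e' : ℝ) * (B : ℝ) ^ s + (B : ℝ) ^ s := by
    intro x hx
    have h1 := hT x hx
    have e1 := Int.mul_ediv_add_emod (T x) ((B : ℤ) ^ s)
    have l1 := Int.emod_nonneg (T x) hBz.ne'
    have u1 := Int.emod_lt_of_pos (T x) hBz
    rw [h1] at e1
    have g1 : (B : ℝ) ^ s * (e' : ℝ) + ((T x % (B : ℤ) ^ s : ℤ) : ℝ) = (T x : ℝ) := by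
      exact_mod_cast e1
    have l1' : (0 : ℝ) ≤ ((T x % (B : ℤ) ^ s : ℤ) : ℝ) := by exact_mod_cast l1
    have u1' : ((T x % (B : ℤ) ^ s : ℤ) : ℝ) < (B : ℝ) ^ s := by exact_mod_cast u1
    constructor <;> linarith
  have hvar := upp_var h10 S' (fun x => (T x : ℝ)) Q _ _ hS' hTr
  rw [Finset.card_product]
  push_cast
  rw [div_le_iff₀ (by positivity)]
  have hQw : (Q : ℝ) * ((B : ℝ) ^ s) ^ 2 ≤ ((B : ℝ) ^ r) ^ 2 := by
    rw [hQ]
    push_cast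
    rw [← pow_mul, ← pow_mul, ← pow_add]
    apply pow_le_pow_right₀ hB1
    omega
  have hBr : (0 : ℝ) < ((B : ℝ) ^ r) ^ 2 := by positivity
  have hb : (0 : ℤ) < (B : ℤ) ^ r := by positivity
  have hstep : ∀ x ∈ (Fintype.piFinset (fun _ : Fin Q => S')) ×ˢ S2,
      ((((∑ i : Fin Q, T (x.1 i)) + V x.2) / (B : ℤ) ^ r - V x.2 / (B : ℤ) ^ r -
        ⌊(Q * ((∑ y ∈ S', (T y : ℝ)) / S'.card)) / ((B : ℤ) ^ r : ℤ)⌋ : ℤ) : ℝ) ^ 2 ≤
      2 * (((∑ i : Fin Q, (T (x.1 i) : ℝ)) - Q * ((∑ y ∈ S', (T y : ℝ)) / S'.card)) ^ 2 /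
        ((B : ℝ) ^ r) ^ 2) + 8 := by
    intro x _
    have := upp_round (∑ i : Fin Q, T (x.1 i)) (V x.2) ((B : ℤ) ^ r) hb
      (Q * ((∑ y ∈ S', (T y : ℝ)) / S'.card))
    push_cast at this ⊢
    exact this
  push_cast at hstep
  refine (Finset.sum_le_sum hstep).trans ?_
  rw [Finset.sum_product]
  simp only [Finset.sum_const, nsmul_eq_mul]
  rw [← Finset.mul_sum, Finset.sum_add_distrib, ← Finset.mul_sum, ← Finset.sum_div]
  simp only [Finset.sum_const, nsmul_eq_mul]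
  have hdiv : (∑ u ∈ Fintype.piFinset (fun _ : Fin Q => S'),
      ((∑ i : Fin Q, (T (u i) : ℝ)) - Q * ((∑ y ∈ S', (T y : ℝ)) / S'.card)) ^ 2) /
      ((B : ℝ) ^ r) ^ 2 ≤ ((Fintype.piFinset (fun _ : Fin Q => S')).card : ℝ) := by
    rw [div_le_iff₀ hBr]
    refine hvar.trans ?_
    rw [mul_comm]
    exact mul_le_mul_of_nonneg_left hQw hc.le
  have := mul_le_mul_of_nonneg_left hdiv hc2.le
  nlinarith

theorem st_UPP (h1 : ST_E1) (h5 : ST_E5) (h6 : ST_E6) (h10 : ST_E10) : ST_UPP := by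
  intro B k hB
  refine ⟨24 * k, by positivity, ?_⟩
  intro Ω Ω' S' S2 T V e' s p q Q hS' hS2 hT hQ hsq hqp hps
  obtain ⟨dp, -, -, sub⟩ := h1
  have hne : (Fintype.piFinset (fun _ : Fin Q => S')).Nonempty :=
    Fintype.piFinset_nonempty.2 fun _ => hS'
  -- the rounding error at level `r`
  have hZ : ∀ r, q ≤ r → ∃ (N : Fin k → ℤ),
      ent ((Fintype.piFinset (fun _ : Fin Q => S')) ×ˢ S2)
        (fun x => cl B r ((∑ i : Fin Q, T (x.1 i)) + V x.2) - cl B r (V x.2) - N) ≤ 12 * k := by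
    intro r hr
    refine ⟨fun i => ⌊(Q * ((∑ y ∈ S', (T y i : ℝ)) / S'.card)) / ((B : ℤ) ^ r : ℤ)⌋, ?_⟩
    have h := h6 _ k ((Fintype.piFinset (fun _ : Fin Q => S')) ×ˢ S2)
      (fun x => cl B r ((∑ i : Fin Q, T (x.1 i)) + V x.2) - cl B r (V x.2) -
        fun i => ⌊(Q * ((∑ y ∈ S', (T y i : ℝ)) / S'.card)) / ((B : ℤ) ^ r : ℤ)⌋) 10
      (hne.product hS2) ?_
    · refine h.trans (le_of_eq ?_)
      ring
    · intro i
      have := upp_mom h10 B hB S' S2 (fun x => T x i) (fun v => V v i) (e' i) s p q r Q hS' hS2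
        (fun x hx => congrFun (hT x hx) i) hQ hsq hqp hps hr
      simp only [Pi.sub_apply, cl, Pi.add_apply, Finset.sum_apply]
      exact this
  obtain ⟨Nq, hq⟩ := hZ q le_rfl
  obtain ⟨Np, hp⟩ := hZ p hqp
  -- level q
  have a1 := dp _ _ _ ((Fintype.piFinset (fun _ : Fin Q => S')) ×ˢ S2)
    (fun x => cl B q ((∑ i : Fin Q, T (x.1 i)) + V x.2))
    (fun x => (cl B q (V x.2),
      cl B q ((∑ i : Fin Q, T (x.1 i)) + V x.2) - cl B q (V x.2) - Nq)) (by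
    intro x _ y _ hxy
    simp only [Prod.mk.injEq] at hxy
    obtain ⟨e1, e2⟩ := hxy
    rw [e1] at e2
    have e3 := sub_left_inj.mp e2
    exact sub_left_inj.mp e3)
  have a2 := sub _ _ _ ((Fintype.piFinset (fun _ : Fin Q => S')) ×ˢ S2)
    (fun x => cl B q (V x.2))
    (fun x => cl B q ((∑ i : Fin Q, T (x.1 i)) + V x.2) - cl B q (V x.2) - Nq)
  have a3 := h5.2.1 _ _ _ (Fintype.piFinset (fun _ : Fin Q => S')) S2 (fun v => cl B q (V v)) hne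
  -- level p
  have b1 := dp _ _ _ ((Fintype.piFinset (fun _ : Fin Q => S')) ×ˢ S2)
    (fun x => cl B p (V x.2))
    (fun x => (cl B p ((∑ i : Fin Q, T (x.1 i)) + V x.2),
      cl B p ((∑ i : Fin Q, T (x.1 i)) + V x.2) - cl B p (V x.2) - Np)) (by
    intro x _ y _ hxy
    simp only [Prod.mk.injEq] at hxy
    obtain ⟨e1, e2⟩ := hxy
    rw [e1] at e2
    have e3 := sub_left_inj.mp e2
    exact sub_right_inj.mp e3)
  have b2 := sub _ _ _ ((Fintype.piFinset (fun _ : Fin Q => S')) ×ˢ S2)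
    (fun x => cl B p ((∑ i : Fin Q, T (x.1 i)) + V x.2))
    (fun x => cl B p ((∑ i : Fin Q, T (x.1 i)) + V x.2) - cl B p (V x.2) - Np)
  have b3 := h5.2.1 _ _ _ (Fintype.piFinset (fun _ : Fin Q => S')) S2 (fun v => cl B p (V v)) hne
  -- `cl p` is a function of `cl q`
  have hpq : ∀ z w : Fin k → ℤ, cl B q z = cl B q w → cl B p z = cl B p w := by
    intro z w h
    funext i
    have h2 := congrFun h i
    simp only [cl] at h2 ⊢
    have e : (B : ℤ) ^ p = (B : ℤ) ^ q * (B : ℤ) ^ (p - q) := by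
      rw [← pow_add]
      congr 1
      omega
    rw [e, ← Int.ediv_ediv_of_nonneg (by positivity), ← Int.ediv_ediv_of_nonneg (by positivity), h2]
  have c1 := dp _ _ _ ((Fintype.piFinset (fun _ : Fin Q => S')) ×ˢ S2)
    (fun x => (cl B q ((∑ i : Fin Q, T (x.1 i)) + V x.2),
      cl B p ((∑ i : Fin Q, T (x.1 i)) + V x.2)))
    (fun x => cl B q ((∑ i : Fin Q, T (x.1 i)) + V x.2)) (by
    intro x _ y _ hxy
    rw [Prod.mk.injEq]
    exact ⟨hxy, hpq _ _ hxy⟩)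
  unfold cent
  linarith

end Pool.Agent.Helper70.DK
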